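import Mathlib

set_option autoImplicit false

namespace Pool.Agent.Results.MP_16080b_co.Counter

open Finset

variable {V : Type} [Fintype V] [DecidableEq V]

/-- Colour `d` may be given to `v`; `c w = 0` means that `w` is uncoloured. -/
def Allowed (G : SimpleGraph V) (k : ℕ) (c : V → ℕ) (v : V) (d : ℕ) : Prop :=
  1 ≤ d ∧ d ≤ k ∧ d ≠ c v ∧ ∀ w, G.Adj v w → c w ≠ d

/-- The set of vertices picked in the current round after picking `v`. -/
def next (P : Finset V) (v : V) : Finset V := if insert v P = univ then ∅ else insert v P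

/-- Bob can force a win within `N` turns; the Boolean is `true` iff Bob is to move. -/
def BobWins (G : SimpleGraph V) (k : ℕ) : ℕ → Bool → (V → ℕ) → Finset V → Prop
  | 0, _, _, _ => False
  | N + 1, true, c, P => ∃ v ∉ P, (∀ d, ¬ Allowed G k c v d) ∨
      ∃ d, Allowed G k c v d ∧ BobWins G k N false (Function.update c v d) (next P v)
  | N + 1, false, c, P => ∀ v ∉ P, ∀ d, Allowed G k c v d →
      BobWins G k N true (Function.update c v d) (next P v)

def dc (c : ℕ) (v : Fin 5) : ℕ := c / 8 ^ v.val % 8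
def dp (P : ℕ) : Finset (Fin 5) := univ.filter fun v => P.testBit v.val
def up (c : ℕ) (v : Fin 5) (d : ℕ) : ℕ := c - dc c v * 8 ^ v.val + d * 8 ^ v.val
def nx (P : ℕ) (v : Fin 5) : ℕ := if P + 2 ^ v.val = 31 then 0 else P + 2 ^ v.val
def al (c : ℕ) (v : Fin 5) (d : ℕ) : Bool :=
  d != dc c v && (if v = 0 then [1, 2, 3, 4].all fun w => dc c w != d else dc c 0 != d)
def force (n : ℕ) (f : ℕ → Bool) : Bool := match n with
  | 0 => f 0
  | m + 1 => f (m + 1)

def bob (k : ℕ) : ℕ → Bool → ℕ → ℕ → Bool
  | 0, _, _, _ => false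
  | N + 1, true, c, P => [0, 1, 2, 3, 4].any fun v : Fin 5 => !P.testBit v.val &&
      (((List.range' 1 k).all fun d => !al c v d) || (List.range' 1 k).any fun d => al c v d &&
        force (up c v d) fun c' => force (nx P v) fun P' => bob k N false c' P')
  | N + 1, false, c, P => [0, 1, 2, 3, 4].all fun v : Fin 5 => P.testBit v.val ||
      (List.range' 1 k).all fun d => !al c v d ||
        force (up c v d) fun c' => force (nx P v) fun P' => bob k N true c' P'

theorem force_eq (n : ℕ) (f : ℕ → Bool) : force n f = f n := by cases n <;> rfl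

theorem all5 (p : Fin 5 → Prop) : (∀ v ∈ ([0, 1, 2, 3, 4] : List (Fin 5)), p v) ↔ ∀ v, p v :=
  ⟨fun h v => h v (by revert v; decide), fun h v _ => h v⟩

theorem ex5 (p : Fin 5 → Prop) : (∃ v ∈ ([0, 1, 2, 3, 4] : List (Fin 5)), p v) ↔ ∃ v, p v :=
  ⟨fun ⟨v, _, h⟩ => ⟨v, h⟩, fun ⟨v, h⟩ => ⟨v, by clear h; revert v; decide, h⟩⟩

theorem al_iff (k c : ℕ) (v : Fin 5) (d : ℕ) :
    Allowed (SimpleGraph.starGraph 0) k (dc c) v d ↔ d ∈ List.range' 1 k ∧ al c v d = true := by
  unfold Allowed al
  rw [List.mem_range'_1]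
  fin_cases v <;> simp [Fin.forall_fin_succ] <;> omega

theorem dc_up (c : ℕ) (v : Fin 5) (d : ℕ) (h : d < 8) :
    dc (up c v d) = Function.update (dc c) v d := by
  funext w
  fin_cases v <;> fin_cases w <;> simp [dc, up] <;> omega

theorem dp_nx : ∀ P < 32, ∀ v : Fin 5, P.testBit v.val = false →
    dp (nx P v) = next (dp P) v ∧ nx P v < 32 := by decide +kernel

theorem bob_iff (k : ℕ) (hk : k < 8) : ∀ (N : ℕ) (b : Bool) (c P : ℕ), P < 32 →
    (bob k N b c P = true ↔ BobWins (SimpleGraph.starGraph 0) k N b (dc c) (dp P)) := by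
  intro N
  induction N with
  | zero => intro b c P _; simp [bob, BobWins]
  | succ N ih =>
    intro b c P hP
    have key : ∀ (b : Bool) (v : Fin 5) (d : ℕ), P.testBit v.val = false → d ∈ List.range' 1 k →
        (bob k N b (up c v d) (nx P v) = true ↔ BobWins (SimpleGraph.starGraph 0) k N b
          (Function.update (dc c) v d) (next (dp P) v)) := fun b v d h1 h2 => by
      rw [ih _ _ _ (dp_nx P hP v h1).2, (dp_nx P hP v h1).1,
        dc_up _ _ _ (by rw [List.mem_range'_1] at h2; omega)]
    have hm : ∀ v, v ∉ dp P ↔ P.testBit v.val = false := by simp [dp]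
    cases b
    · simp only [bob, BobWins, force_eq, List.all_eq_true, all5, al_iff, hm, Bool.or_eq_true,
        Bool.not_eq_true']
      refine forall_congr' fun v => ⟨fun h h1 d h2 => (key _ v d h1 h2.1).1 ?_, fun h => ?_⟩
      · exact ((h.resolve_left (by simp [h1])) d h2.1).resolve_left (by simp [h2.2])
      · by_cases h1 : P.testBit v.val = true
        · exact Or.inl h1
        refine Or.inr fun d h2 => ?_
        by_cases h3 : al c v d = true
        · exact Or.inr ((key _ v d (by simpa using h1) h2).2 (h (by simpa using h1) d ⟨h2, h3⟩))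
        · exact Or.inl (by simpa using h3)
    · simp only [bob, BobWins, force_eq, List.any_eq_true, List.all_eq_true, ex5, al_iff, hm,
        Bool.or_eq_true, Bool.and_eq_true, Bool.not_eq_true', not_and, Bool.not_eq_true]
      refine exists_congr fun v => and_congr_right fun h1 => or_congr_right
        (exists_congr fun d => ?_)
      rw [and_assoc]
      exact and_congr_right fun h2 => and_congr_right fun _ => key _ v d h1 h2

theorem result : ∃ (G : SimpleGraph (Fin 5)) (k : ℕ), 1 ≤ k ∧
    (∀ j, 1 ≤ j → j ≤ k → BobWins G j (3 * 5) false (fun _ => 0) ∅) ∧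
      ¬ BobWins G k (2 * 5) false (fun _ => 0) ∅ := by
  have e1 : dc 0 = fun _ => 0 := by funext v; simp [dc]
  have e2 : dp 0 = ∅ := by simp [dp]
  refine ⟨SimpleGraph.starGraph 0, 4, by norm_num, fun j h1 h2 => ?_, ?_⟩
  · rw [← e1, ← e2, ← bob_iff j (by omega) _ _ _ _ (by norm_num)]
    interval_cases j <;> decide +kernel
  · rw [← e1, ← e2, ← bob_iff 4 (by omega) _ _ _ _ (by norm_num)]
    decide +kernel

end Pool.Agent.Results.MP_16080b_co.Counter
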